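import Pool.Agent.W429.TCI.Stmts
set_option autoImplicit false
set_option linter.all false

/-! TCI-L3: the chain of ideals. -/

namespace Pool.Agent.W918.TCI
open Pool.Agent.Helper805.Nuc.Tens Pool.Agent.Helper805.Nuc.Free Pool.Agent.Helper805.Nuc.NFun
  Pool.Agent.Helper805.Nuc.Alt Pool.Agent.W429.TCI

variable {F : Type} [Field F] {A : Type} [NonUnitalNonAssocRing A] [Module F A]
  [IsScalarTower F A A] [SMulCommClass F A A]

theorem pr_left {I J : Submodule F A} {i j : A} (hi : i ∈ I) (hj : j ∈ J) : i * j ∈ pr F I J :=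
  Submodule.subset_span ⟨i, hi, j, hj, Or.inl rfl⟩

theorem pr_right {I J : Submodule F A} {i j : A} (hi : i ∈ I) (hj : j ∈ J) : j * i ∈ pr F I J :=
  Submodule.subset_span ⟨i, hi, j, hj, Or.inr rfl⟩

theorem pr_le {I J T : Submodule F A} (h : ∀ i ∈ I, ∀ j ∈ J, i * j ∈ T ∧ j * i ∈ T) :
    pr F I J ≤ T := by
  apply Submodule.span_le.2
  rintro z ⟨i, hi, j, hj, rfl | rfl⟩
  · exact (h i hi j hj).1
  · exact (h i hi j hj).2

theorem pr_mono {I I' J J' : Submodule F A} (h1 : I ≤ I') (h2 : J ≤ J') : pr F I J ≤ pr F I' J' :=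
  pr_le fun i hi j hj => ⟨pr_left (h1 hi) (h2 hj), pr_right (h1 hi) (h2 hj)⟩

theorem pr_le_left {I J : Submodule F A} (hI : IsIdeal F A I) : pr F I J ≤ I :=
  pr_le fun i hi j _ => ⟨(hI j i hi).2, (hI j i hi).1⟩

/-- the set of all elements mapped into `T` by all linear maps of a family -/
def stb (T : Submodule F A) (S : Set (A →ₗ[F] A)) : Submodule F A where
  carrier := {z | ∀ f ∈ S, f z ∈ T}
  add_mem' := fun {a b} ha hb f hf => by
    rw [map_add]; exact T.add_mem (ha f hf) (hb f hf)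
  zero_mem' := fun f _ => by rw [map_zero]; exact T.zero_mem
  smul_mem' := fun c x hx f hf => by rw [map_smul]; exact T.smul_mem c (hx f hf)

theorem mem_stb {T : Submodule F A} {S : Set (A →ₗ[F] A)} {z : A} :
    z ∈ stb T S ↔ ∀ f ∈ S, f z ∈ T := Iff.rfl

/-- left and right multiplications -/
def lm (F : Type) [Field F] {A : Type} [NonUnitalNonAssocRing A] [Module F A]
    [IsScalarTower F A A] [SMulCommClass F A A] (a : A) : A →ₗ[F] A where
  toFun := fun x => a * x
  map_add' := mul_add a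
  map_smul' := fun c x => by simp [mul_smul_comm]

def rm (F : Type) [Field F] {A : Type} [NonUnitalNonAssocRing A] [Module F A]
    [IsScalarTower F A A] [SMulCommClass F A A] (a : A) : A →ₗ[F] A where
  toFun := fun x => x * a
  map_add' := fun x y => add_mul x y a
  map_smul' := fun c x => by simp [smul_mul_assoc]

theorem lm_apply (a x : A) : lm F a x = a * x := rfl
theorem rm_apply (a x : A) : rm F a x = x * a := rfl

/-- (a) products of ideals are ideals -/
theorem pr_ideal (hA : IsAlt A) {I J : Submodule F A} (hI : IsIdeal F A I) (hJ : IsIdeal F A J) :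
    IsIdeal F A (pr F I J) := by
  intro a x hx
  have key : ∀ i ∈ I, ∀ j ∈ J, as i j a ∈ pr F I J ∧ as j i a ∈ pr F I J := by
    intro i hi j hj
    constructor
    · rw [p23 hA]
      refine Submodule.neg_mem _ ?_
      unfold as
      exact Submodule.sub_mem _ (pr_left (hI a i hi).2 hj) (pr_left hi (hJ a j hj).1)
    · rw [p23 hA]
      refine Submodule.neg_mem _ ?_
      unfold as
      exact Submodule.sub_mem _ (pr_right hi (hJ a j hj).2) (pr_right (hI a i hi).1 hj)
  have h : pr F I J ≤ stb (pr F I J) {lm F a, rm F a} := by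
    refine pr_le fun i hi j hj => ?_
    obtain ⟨k1, k2⟩ := key i hi j hj
    constructor
    · rintro f (rfl | rfl)
      · rw [lm_apply]
        have e : a * (i * j) = (a * i) * j - as a i j := by unfold as; abel
        rw [e, pc1 hA]
        exact Submodule.sub_mem _ (pr_left (hI a i hi).1 hj) k1
      · rw [rm_apply]
        have e : (i * j) * a = i * (j * a) + as i j a := by unfold as; abel
        rw [e]
        exact Submodule.add_mem _ (pr_left hi (hJ a j hj).2) k1
    · rintro f (rfl | rfl)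
      · rw [lm_apply]
        have e : a * (j * i) = (a * j) * i - as a j i := by unfold as; abel
        rw [e, pc1 hA]
        exact Submodule.sub_mem _ (pr_right hi (hJ a j hj).1) k2
      · rw [rm_apply]
        have e : (j * i) * a = j * (i * a) + as j i a := by unfold as; abel
        rw [e]
        exact Submodule.add_mem _ (pr_right (hI a i hi).2 hj) k2
  have h2 := h hx
  exact ⟨h2 (lm F a) (Or.inl rfl), h2 (rm F a) (Or.inr rfl)⟩

theorem gen_ideal (S : Set A) : IsIdeal F A (idealGen F A S) := by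
  intro a x hx
  unfold idealGen at *
  simp only [Submodule.mem_sInf] at *
  exact ⟨fun T hT => (hT.1 a x (hx T hT)).1, fun T hT => (hT.1 a x (hx T hT)).2⟩

theorem gen_mem {S : Set A} {s : A} (hs : s ∈ S) : s ∈ idealGen F A S := by
  unfold idealGen
  simp only [Submodule.mem_sInf]
  exact fun T hT => hT.2 hs

theorem gen_le {S : Set A} {T : Submodule F A} (hT : IsIdeal F A T) (hS : S ⊆ T) :
    idealGen F A S ≤ T := sInf_le ⟨hT, hS⟩

theorem as_mem_D (a b c : A) : as a b c ∈ Dideal F A := gen_mem ⟨a, b, c, rfl⟩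

/-- (b) ideals inside the nucleus annihilate the associator ideal -/
theorem pr_nuc (hA : IsAlt A) {I : Submodule F A} (hI : IsIdeal F A I) (hN : I ≤ nucleus F A) :
    pr F I (Dideal F A) = ⊥ := by
  have hn : ∀ i ∈ I, IsNuc i := fun i hi => (mem_nucleus hA).1 (hN hi)
  have hT : Dideal F A ≤ stb ⊥ {f | ∃ i ∈ I, f = lm F i ∨ f = rm F i} := by
    refine gen_le ?_ ?_
    · intro a z hz
      have hz1 : ∀ i ∈ I, i * z = 0 := fun i hi => hz (lm F i) ⟨i, hi, Or.inl rfl⟩
      have hz2 : ∀ i ∈ I, z * i = 0 := fun i hi => hz (rm F i) ⟨i, hi, Or.inr rfl⟩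
      constructor
      · rintro f ⟨i, hi, rfl | rfl⟩
        · rw [lm_apply, Submodule.mem_bot]
          have e : i * (a * z) = (i * a) * z - as i a z := by unfold as; abel
          rw [e, hn i hi, hz1 _ (hI a i hi).2, sub_zero]
        · rw [rm_apply, Submodule.mem_bot]
          have e : (a * z) * i = a * (z * i) + as a z i := by unfold as; abel
          rw [e, (hn i hi).three hA, hz2 i hi, mul_zero, add_zero]
      · rintro f ⟨i, hi, rfl | rfl⟩
        · rw [lm_apply, Submodule.mem_bot]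
          have e : i * (z * a) = (i * z) * a - as i z a := by unfold as; abel
          rw [e, hn i hi, hz1 i hi, zero_mul, sub_zero]
        · rw [rm_apply, Submodule.mem_bot]
          have e : (z * a) * i = z * (a * i) + as z a i := by unfold as; abel
          rw [e, (hn i hi).three hA, hz2 _ (hI a i hi).1, add_zero]
    · rintro z ⟨a, b, c, rfl⟩ f ⟨i, hi, rfl | rfl⟩
      · rw [lm_apply, Submodule.mem_bot]
        have e := (hn i hi).mul_left hA a b c
        rw [hn _ (hI a i hi).2] at e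
        exact e.symm
      · rw [rm_apply, Submodule.mem_bot]
        have e := cocycle a b c i
        rw [(hn i hi).three hA, (hn i hi).three hA, (hn i hi).three hA,
          (hn _ (hI c i hi).1).three hA, mul_zero] at e
        simpa [as] using e
  rw [eq_bot_iff]
  refine pr_le fun i hi d hd => ?_
  have h := hT hd
  exact ⟨h (lm F i) ⟨i, hi, Or.inl rfl⟩, h (rm F i) ⟨i, hi, Or.inr rfl⟩⟩

/-- (c) -/
theorem pr_assoc (hA : IsAlt A) {I D : Submodule F A} :
    pr F I (pr F D D) ≤ pr F (pr F I D) D := by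
  refine pr_le fun i hi z hz => ?_
  have key : ∀ d ∈ D, ∀ d' ∈ D, as i d d' ∈ pr F (pr F I D) D := by
    intro d hd d' hd'
    rw [p12 hA]
    refine Submodule.neg_mem _ ?_
    unfold as
    exact Submodule.sub_mem _ (pr_left (pr_right hi hd) hd') (pr_right (pr_left hi hd') hd)
  have h : pr F D D ≤ stb (pr F (pr F I D) D) {lm F i, rm F i} := by
    have h1 : ∀ d ∈ D, ∀ d' ∈ D, d * d' ∈ stb (pr F (pr F I D) D) {lm F i, rm F i} := by
      intro d hd d' hd'
      rintro f (rfl | rfl)
      · rw [lm_apply]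
        have e : i * (d * d') = (i * d) * d' - as i d d' := by unfold as; abel
        rw [e]
        exact Submodule.sub_mem _ (pr_left (pr_left hi hd) hd') (key d hd d' hd')
      · rw [rm_apply]
        have e : (d * d') * i = d * (d' * i) + as d d' i := by unfold as; abel
        rw [e, pc2 hA d d' i]
        exact Submodule.add_mem _ (pr_right (pr_right hi hd') hd) (key d hd d' hd')
    exact pr_le fun d hd d' hd' => ⟨h1 d hd d' hd', h1 d' hd' d hd⟩
  have h2 := h hz
  exact ⟨h2 (lm F i) (Or.inl rfl), h2 (rm F i) (Or.inr rfl)⟩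

/-- (d) -/
theorem PI_le (hA : IsAlt A) : PI F A ≤ pr F (Dideal F A) (Dideal F A) := by
  have hid := pr_ideal hA (gen_ideal (F := F) (A := A) {z | ∃ a b c : A, z = (a * b) * c - a * (b * c)})
    (gen_ideal (F := F) (A := A) {z | ∃ a b c : A, z = (a * b) * c - a * (b * c)})
  refine gen_le hid ?_
  rintro z ⟨x, y, a, rfl⟩
  have h : nstar x y ∈ pr F (Dideal F A) (Dideal F A) := by
    unfold nstar
    refine Submodule.sum_mem _ fun σ _ => ?_
    refine zsmul_mem ?_ _
    unfold Gp jo
    exact Submodule.add_mem _ (pr_left (as_mem_D _ _ _) (as_mem_D _ _ _))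
      (pr_left (as_mem_D _ _ _) (as_mem_D _ _ _))
  unfold br
  exact Submodule.sub_mem _ (hid a _ h).2 (hid a _ h).1

/-- (e) derivations -/
theorem Chr_pr {I J : Submodule F A} (hI : Chr F I) (hJ : Chr F J) : Chr F (pr F I J) := by
  intro δ hδ z hz
  have h : pr F I J ≤ stb (pr F I J) {δ} := by
    refine pr_le fun i hi j hj => ⟨?_, ?_⟩
    · rintro f rfl
      rw [hδ]
      exact Submodule.add_mem _ (pr_left (hI _ hδ i hi) hj) (pr_left hi (hJ _ hδ j hj))
    · rintro f rfl
      rw [hδ]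
      exact Submodule.add_mem _ (pr_right hi (hJ _ hδ j hj)) (pr_right (hI _ hδ i hi) hj)
  exact h hz δ rfl

theorem Chr_gen {S : Set A} (h : ∀ δ : A →ₗ[F] A, IsDer F δ → ∀ s ∈ S, δ s ∈ idealGen F A S) :
    Chr F (idealGen F A S) := by
  intro δ hδ z hz
  have hid := gen_ideal (F := F) S
  have h1 : idealGen F A S ≤ idealGen F A S ⊓ stb (idealGen F A S) {δ} := by
    refine gen_le ?_ ?_
    · intro a x hx
      obtain ⟨hx1, hx2⟩ := hx
      have hx3 : δ x ∈ idealGen F A S := hx2 δ rfl
      refine ⟨⟨(hid a x hx1).1, ?_⟩, ⟨(hid a x hx1).2, ?_⟩⟩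
      · rintro f rfl
        rw [hδ]
        exact Submodule.add_mem _ (hid _ x hx1).1 (hid a _ hx3).1
      · rintro f rfl
        rw [hδ]
        exact Submodule.add_mem _ (hid a _ hx3).2 (hid _ x hx1).2
    · intro s hs
      refine ⟨gen_mem hs, ?_⟩
      rintro f rfl
      exact h _ hδ s hs
  exact (h1 hz).2 δ rfl

theorem der_as {δ : A →ₗ[F] A} (hδ : IsDer F δ) (a b c : A) :
    δ (as a b c) = as (δ a) b c + as a (δ b) c + as a b (δ c) := by
  unfold as
  rw [map_sub, hδ, hδ, hδ, hδ]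
  simp only [add_mul, mul_add]
  abel

theorem Chr_D : Chr F (Dideal F A) := by
  refine Chr_gen fun δ hδ s hs => ?_
  obtain ⟨a, b, c, rfl⟩ := hs
  have := der_as hδ a b c
  unfold as at this
  rw [this]
  refine Submodule.add_mem _ (Submodule.add_mem _ ?_ ?_) ?_ <;> exact gen_mem ⟨_, _, _, rfl⟩

theorem der_jo {δ : A →ₗ[F] A} (hδ : IsDer F δ) (a b : A) :
    δ (jo a b) = jo (δ a) b + jo a (δ b) := by
  unfold jo
  rw [map_add, hδ, hδ]
  abel

theorem jo_add_left (a a' b : A) : jo (a + a') b = jo a b + jo a' b := by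
  unfold jo
  rw [add_mul, mul_add]
  abel

theorem jo_add_right (a b b' : A) : jo a (b + b') = jo a b + jo a b' := by
  unfold jo
  rw [add_mul, mul_add]
  abel

theorem der_Gp {δ : A →ₗ[F] A} (hδ : IsDer F δ) (a1 a2 a3 a4 a5 y : A) :
    δ (Gp a1 a2 a3 a4 a5 y) = (Gp (δ a1) a2 a3 a4 a5 y + Gp a1 (δ a2) a3 a4 a5 y +
      Gp a1 a2 (δ a3) a4 a5 y + Gp a1 a2 a3 (δ a4) a5 y + Gp a1 a2 a3 a4 (δ a5) y) +
      Gp a1 a2 a3 a4 a5 (δ y) := by
  unfold Gp
  rw [der_jo hδ, der_as hδ, der_as hδ]
  simp only [jo_add_left, jo_add_right]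
  abel

theorem der_nstar {δ : A →ₗ[F] A} (hδ : IsDer F δ) (x : Fin 5 → A) (y : A) :
    δ (nstar x y) = (∑ i : Fin 5, nstar (Function.update x i (δ (x i))) y) + nstar x (δ y) := by
  unfold nstar
  rw [map_sum, Finset.sum_comm, ← Finset.sum_add_distrib]
  refine Finset.sum_congr rfl fun σ _ => ?_
  rw [map_zsmul, der_Gp hδ, smul_add, ← Finset.smul_sum]
  congr 2
  rw [← Equiv.sum_comp σ, Fin.sum_univ_five]
  have hne : ∀ i j : Fin 5, i ≠ j → σ i ≠ σ j := fun i j h => fun h' => h (σ.injective h')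
  have u : ∀ i j : Fin 5, i ≠ j → ∀ v : A, Function.update x (σ j) v (σ i) = x (σ i) :=
    fun i j h v => Function.update_of_ne (hne i j h) _ _
  simp only [Function.update_self]
  rw [u 1 0 (by decide), u 2 0 (by decide), u 3 0 (by decide), u 4 0 (by decide),
    u 0 1 (by decide), u 2 1 (by decide), u 3 1 (by decide), u 4 1 (by decide),
    u 0 2 (by decide), u 1 2 (by decide), u 3 2 (by decide), u 4 2 (by decide),
    u 0 3 (by decide), u 1 3 (by decide), u 2 3 (by decide), u 4 3 (by decide),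
    u 0 4 (by decide), u 1 4 (by decide), u 2 4 (by decide), u 3 4 (by decide)]

theorem Chr_PI : Chr F (PI F A) := by
  refine Chr_gen fun δ hδ s hs => ?_
  obtain ⟨x, y, a, rfl⟩ := hs
  have hm : ∀ (x : Fin 5 → A) (y a : A), br (nstar x y) a ∈
      idealGen F A {z | ∃ (x : Fin 5 → A) (y a : A), z = br (nstar x y) a} :=
    fun x y a => gen_mem ⟨x, y, a, rfl⟩
  have e : δ (br (nstar x y) a) = br (δ (nstar x y)) a + br (nstar x y) (δ a) := by
    unfold br
    rw [map_sub, hδ, hδ]
    abel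
  have e2 : ∀ u v : A, br (u + v) a = br u a + br v a := by
    intro u v
    unfold br
    rw [add_mul, mul_add]
    abel
  have e3 : br (∑ i : Fin 5, nstar (Function.update x i (δ (x i))) y) a =
      ∑ i : Fin 5, br (nstar (Function.update x i (δ (x i))) y) a := by
    unfold br
    rw [Finset.sum_mul, Finset.mul_sum, ← Finset.sum_sub_distrib]
  rw [e, der_nstar hδ, e2, e3]
  exact Submodule.add_mem _ (Submodule.add_mem _ (Submodule.sum_mem _ fun i _ => hm _ _ _)
    (hm _ _ _)) (hm _ _ _)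

theorem l3 : S_L3 := by
  intro F _ A _ _ _ _ hA h1 h2 h3
  have hD : IsIdeal F A (Dideal F A) := gen_ideal _
  have hP : IsIdeal F A (PI F A) := gen_ideal _
  have hJ1 := pr_ideal hA hP hD
  have hJ2 := pr_ideal hA hJ1 hD
  have l1 : pr F (PI F A) (Dideal F A) ≤ PI F A := pr_le_left hP
  have l2 : pr F (pr F (PI F A) (Dideal F A)) (Dideal F A) ≤ pr F (PI F A) (Dideal F A) :=
    pr_le_left hJ1
  have l0 : PI F A ≤ pr F (Dideal F A) (Dideal F A) := PI_le hA
  have c1 := Chr_pr (Chr_PI (F := F) (A := A)) (Chr_D (F := F) (A := A))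
  have c2 := Chr_pr c1 (Chr_D (F := F) (A := A))
  have sq : ∀ J : Submodule F A, J ≤ PI F A → pr F (pr F J (Dideal F A)) (Dideal F A) = ⊥ →
      ∀ u ∈ J, ∀ v ∈ J, u * v = 0 := by
    intro J hJ h u hu v hv
    have h4 : u * v ∈ pr F J (pr F (Dideal F A) (Dideal F A)) := pr_left hu (l0 (hJ hv))
    have h5 := pr_assoc hA h4
    rw [h] at h5
    exact (Submodule.mem_bot F).1 h5
  by_cases n2 : pr F (pr F (PI F A) (Dideal F A)) (Dideal F A) ≤ nucleus F A
  · have z2 := pr_nuc hA hJ2 n2
    by_cases n1 : pr F (PI F A) (Dideal F A) ≤ nucleus F A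
    · have z1 := pr_nuc hA hJ1 n1
      exact ⟨PI F A, hP, sq _ le_rfl z1, Chr_PI, h3⟩
    · exact ⟨pr F (PI F A) (Dideal F A), hJ1, sq _ l1 z2, c1, n1⟩
  · refine ⟨pr F (pr F (PI F A) (Dideal F A)) (Dideal F A), hJ2, sq _ (l2.trans l1) ?_, c2, n2⟩
    rw [eq_bot_iff, ← h1]
    exact pr_mono (pr_mono h2 le_rfl) le_rfl

end Pool.Agent.W918.TCI
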